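import Pool.Agent.Helper37.SU.Stmts

/-! MP_aa31b4_an, module PK: products of kernels. -/

set_option autoImplicit false

open Finset

namespace Pool.Agent.Helper37.SU

theorem pk_ev_nonneg (b j : ℕ) (t : UnitAddCircle) : 0 ≤ ev b j t := by
  unfold ev; positivity

theorem pk_ev_le (b j : ℕ) (t : UnitAddCircle) : ev b j t ≤ 1 := by
  unfold ev
  refine inv_le_one_of_one_le₀ ?_
  have h : 0 ≤ (b : ℝ) ^ j * ‖t‖ := by positivity
  nlinarith

theorem pk_core (C A A' : ℝ) (u v : UnitAddCircle → ℂ) (e : UnitAddCircle → ℝ) (hC : 0 < C)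
    (hA : 0 ≤ A) (hAA : A ≤ A') (he : ∀ t, 0 ≤ e t) (hu : ∀ t, ‖u t‖ ≤ C)
    (hu2 : ∀ t t', ‖u t - u t'‖ ≤ 2 * C * A * ‖t - t'‖) (hv : ∀ t, ‖v t‖ ≤ C * e t)
    (hv2 : ∀ t t', ‖v t - v t'‖ ≤ C * A' * ‖t - t'‖ * (e t + e t')) (t t' : UnitAddCircle) :
    ‖u t * v t‖ ≤ 3 * C ^ 2 * e t ∧
    ‖u t * v t - u t' * v t'‖ ≤ 3 * C ^ 2 * (A' * ‖t - t'‖ * (e t + e t')) := by
  have hD : 0 ≤ ‖t - t'‖ := norm_nonneg _
  constructor
  · rw [norm_mul]
    have h1 : ‖u t‖ * ‖v t‖ ≤ C * (C * e t) :=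
      mul_le_mul (hu t) (hv t) (norm_nonneg _) hC.le
    have h2 : 0 ≤ C ^ 2 * e t := mul_nonneg (by positivity) (he t)
    nlinarith
  · have h0 : u t * v t - u t' * v t' = (u t - u t') * v t + u t' * (v t - v t') := by ring
    rw [h0]
    refine (norm_add_le _ _).trans ?_
    rw [norm_mul, norm_mul]
    have h1 : ‖u t - u t'‖ * ‖v t‖ ≤ (2 * C * A * ‖t - t'‖) * (C * e t) :=
      mul_le_mul (hu2 t t') (hv t) (norm_nonneg _) (by positivity)
    have h2 : ‖u t'‖ * ‖v t - v t'‖ ≤ C * (C * A' * ‖t - t'‖ * (e t + e t')) :=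
      mul_le_mul (hu t') (hv2 t t') (norm_nonneg _) hC.le
    have h3 : (2 * C * A * ‖t - t'‖) * (C * e t) ≤
        2 * C ^ 2 * (A' * ‖t - t'‖ * (e t + e t')) := by
      have h4 : A * ‖t - t'‖ ≤ A' * ‖t - t'‖ := mul_le_mul_of_nonneg_right hAA hD
      have h5 : A * ‖t - t'‖ * e t ≤ A' * ‖t - t'‖ * (e t + e t') :=
        mul_le_mul h4 (by linarith [he t']) (he t) (mul_nonneg (hA.trans hAA) hD)
      have h6 : (2 * C * A * ‖t - t'‖) * (C * e t) = 2 * C ^ 2 * (A * ‖t - t'‖ * e t) := by ring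
      rw [h6]
      exact mul_le_mul_of_nonneg_left h5 (by positivity)
    have h7 : C * (C * A' * ‖t - t'‖ * (e t + e t')) = C ^ 2 * (A' * ‖t - t'‖ * (e t + e t')) := by
      ring
    rw [h7] at h2
    linarith

theorem st_PK (hVPB : ST_VPB) : ST_PK := by
  intro b hb
  obtain ⟨C, hC, h⟩ := hVPB b (by omega)
  have hb0 : (0 : ℝ) < b := by
    have : 0 < b := by omega
    exact_mod_cast this
  have hb1 : (1 : ℝ) ≤ b := by
    have : 1 ≤ b := by omega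
    exact_mod_cast this
  have hpos : ∀ i : ℕ, (0 : ℝ) < (b : ℝ) ^ i := fun i => pow_pos hb0 i
  have hni : ∀ i : ℕ, ‖((b : ℂ) ^ i)⁻¹‖ = ((b : ℝ) ^ i)⁻¹ := by
    intro i
    rw [norm_inv, norm_pow, Complex.norm_natCast]
  -- the functions
  have hf : ∀ (i : ℕ) (c t : UnitAddCircle),
      ‖((b : ℂ) ^ i)⁻¹ * dk b i (c - t)‖ ≤ C * ev b i (t - c) := by
    intro i c t
    have h1 := (h i (c - t) 0).2.1
    have h2 : ev b i (c - t) = ev b i (t - c) := by unfold ev; rw [norm_sub_rev]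
    rw [norm_mul, hni]
    rw [h2] at h1
    refine (mul_le_mul_of_nonneg_left h1 (inv_nonneg.mpr (hpos i).le)).trans (le_of_eq ?_)
    have := (hpos i).ne'
    field_simp
  have hf2 : ∀ (i : ℕ) (c t t' : UnitAddCircle),
      ‖((b : ℂ) ^ i)⁻¹ * dk b i (c - t) - ((b : ℂ) ^ i)⁻¹ * dk b i (c - t')‖ ≤
        C * (b : ℝ) ^ i * ‖t - t'‖ * (ev b i (t - c) + ev b i (t' - c)) := by
    intro i c t t'
    have h1 := (h i (c - t) (c - t')).2.2.2
    have h2 : ∀ s, ev b i (c - s) = ev b i (s - c) := by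
      intro s; unfold ev; rw [norm_sub_rev]
    have h3 : ‖c - t - (c - t')‖ = ‖t - t'‖ := by
      rw [norm_sub_rev]; congr 1; abel
    rw [← mul_sub, norm_mul, hni]
    rw [h2, h2, h3] at h1
    refine (mul_le_mul_of_nonneg_left h1 (inv_nonneg.mpr (hpos i).le)).trans (le_of_eq ?_)
    have := (hpos i).ne'
    field_simp
  have hg : ∀ (i : ℕ) (c t : UnitAddCircle), ‖ik b i (t - c)‖ ≤ C * ev b i (t - c) := by
    intro i c t
    have h1 := (h i (t - c) 0).1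
    unfold ik
    rw [norm_mul, hni]
    refine (mul_le_mul_of_nonneg_left h1 (inv_nonneg.mpr (hpos i).le)).trans (le_of_eq ?_)
    have := (hpos i).ne'
    field_simp
  have hg2 : ∀ (i : ℕ) (c t t' : UnitAddCircle), ‖ik b i (t - c) - ik b i (t' - c)‖ ≤
      C * (b : ℝ) ^ i * ‖t - t'‖ * (ev b i (t - c) + ev b i (t' - c)) := by
    intro i c t t'
    have h1 := (h i (t - c) (t' - c)).2.2.1
    have h3 : ‖t - c - (t' - c)‖ = ‖t - t'‖ := by congr 1; abel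
    unfold ik
    rw [← mul_sub, norm_mul, hni]
    rw [h3] at h1
    refine (mul_le_mul_of_nonneg_left h1 (inv_nonneg.mpr (hpos i).le)).trans (le_of_eq ?_)
    have := (hpos i).ne'
    field_simp
  -- crude bounds
  have hcr : ∀ (F : UnitAddCircle → ℂ) (i : ℕ) (c : UnitAddCircle),
      (∀ t t', ‖F t - F t'‖ ≤ C * (b : ℝ) ^ i * ‖t - t'‖ * (ev b i (t - c) + ev b i (t' - c))) →
      ∀ t t', ‖F t - F t'‖ ≤ 2 * C * (b : ℝ) ^ i * ‖t - t'‖ := by
    intro F i c hF t t'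
    refine (hF t t').trans ?_
    have h1 := pk_ev_le b i (t - c)
    have h2 := pk_ev_le b i (t' - c)
    have h3 : 0 ≤ C * (b : ℝ) ^ i * ‖t - t'‖ := by positivity
    nlinarith
  have hcr1 : ∀ (F : UnitAddCircle → ℂ) (i : ℕ) (c : UnitAddCircle),
      (∀ t, ‖F t‖ ≤ C * ev b i (t - c)) → ∀ t, ‖F t‖ ≤ C := by
    intro F i c hF t
    refine (hF t).trans ?_
    have h1 := pk_ev_le b i (t - c)
    nlinarith
  refine ⟨3 * C ^ 2, by positivity, ?_⟩
  intro i i' c c'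
  rcases le_or_gt i i' with hii | hii
  · refine ⟨c', fun t t' => ?_⟩
    rw [max_eq_right hii, ← mul_assoc, ← mul_assoc]
    exact pk_core C ((b : ℝ) ^ i) ((b : ℝ) ^ i') (fun t => ((b : ℂ) ^ i)⁻¹ * dk b i (c - t))
      (fun t => ik b i' (t - c')) (fun t => ev b i' (t - c')) hC (hpos i).le
      (pow_le_pow_right₀ hb1 hii) (fun t => pk_ev_nonneg b i' (t - c'))
      (hcr1 _ i c (hf i c)) (hcr _ i c (hf2 i c)) (hg i' c') (hg2 i' c') t t'
  · refine ⟨c, fun t t' => ?_⟩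
    rw [max_eq_left hii.le, ← mul_assoc, ← mul_assoc, mul_comm (((b : ℂ) ^ i)⁻¹ * dk b i (c - t)),
      mul_comm (((b : ℂ) ^ i)⁻¹ * dk b i (c - t'))]
    exact pk_core C ((b : ℝ) ^ i') ((b : ℝ) ^ i) (fun t => ik b i' (t - c'))
      (fun t => ((b : ℂ) ^ i)⁻¹ * dk b i (c - t)) (fun t => ev b i (t - c)) hC (hpos i').le
      (pow_le_pow_right₀ hb1 hii.le) (fun t => pk_ev_nonneg b i (t - c))
      (hcr1 _ i' c' (hg i' c')) (hcr _ i' c' (hg2 i' c')) (hf i c) (hf2 i c) t t'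

end Pool.Agent.Helper37.SU
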